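import Mathlib
import Pool.Agent.U115.GD.Stm

/-!
# Project GD, package DA: the density of the split primes

The residues modulo `Q` prime to `Q` are sorted by their residue modulo `8` and by the Jacobi symbols
modulo the elements of `L`. If `a` and `x` are in the same class then `x * a` is split, so no class
has more elements than the class of the split residues. There are at most `4 * 2 ^ |L|` classes.
-/

set_option autoImplicit false

open scoped Classical

namespace Pool.Agent.U234.GD

open Finset Pool.Agent.U115.GD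

/-- the residues prime to the modulus -/
def RR0 (G : Cfg) : Finset ℕ := (range G.Q).filter fun r => Nat.Coprime r G.Q

theorem card_RR0 (G : Cfg) : (RR0 G).card = Nat.totient G.Q := by
  unfold RR0
  rw [Nat.totient_eq_card_coprime]
  congr 1
  ext r
  simp [Nat.coprime_comm]

/-- the class of a residue -/
noncomputable def cls (G : Cfg) (r : ℕ) : ℕ × Finset ℕ :=
  (r % 8, G.L.filter fun l => jacobiSym (r : ℤ) l = 1)

theorem jac_pm {G : Cfg} (h : Ok G) {r l : ℕ} (hr : Nat.Coprime r G.Q) (hl : l ∈ G.L) :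
    jacobiSym (r : ℤ) l = 1 ∨ jacobiSym (r : ℤ) l = -1 := by
  have h1 : Nat.Coprime r l := hr.coprime_dvd_right (h.hL l hl).2.2
  exact jacobiSym.eq_one_or_neg_one (by simpa using h1)

theorem odd_of {G : Cfg} (h : Ok G) {r : ℕ} (hr : Nat.Coprime r G.Q) :
    r % 8 = 1 ∨ r % 8 = 3 ∨ r % 8 = 5 ∨ r % 8 = 7 := by
  have h2 : r % 2 = 1 := by
    have h1 : Nat.Coprime r 2 := hr.coprime_dvd_right (dvd_trans (by norm_num) h.q8)
    rcases Nat.mod_two_eq_zero_or_one r with h0 | h0
    · exact absurd (Nat.dvd_gcd (Nat.dvd_of_mod_eq_zero h0) dvd_rfl) (by rw [h1]; norm_num)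
    · exact h0
  omega

theorem hc_of_cls {G : Cfg} (h : Ok G) {x a : ℕ} (hx : Nat.Coprime x G.Q)
    (ha : Nat.Coprime a G.Q) (he : cls G x = cls G a) : Hc G (x * a) := by
  have h8 : x % 8 = a % 8 := congrArg Prod.fst he
  have hL : (G.L.filter fun l => jacobiSym (x : ℤ) l = 1) =
      G.L.filter fun l => jacobiSym (a : ℤ) l = 1 := congrArg Prod.snd he
  refine ⟨?_, fun l hl => ?_⟩
  · rw [Nat.mul_mod, h8]
    rcases odd_of h ha with h1 | h1 | h1 | h1 <;> rw [h1]
  · have hi : jacobiSym (x : ℤ) l = 1 ↔ jacobiSym (a : ℤ) l = 1 := by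
      have := congrArg (fun s => l ∈ s) hL
      simpa [hl] using this
    rw [Nat.cast_mul, jacobiSym.mul_left]
    rcases jac_pm h hx hl with h1 | h1
    · rw [h1, hi.1 h1, one_mul]
    · rcases jac_pm h ha hl with h2 | h2
      · rw [hi.2 h2] at h1
        norm_num at h1
      · rw [h1, h2]
        norm_num

theorem fibre_le {G : Cfg} (h : Ok G) (c : ℕ × Finset ℕ) :
    ((RR0 G).filter fun x => cls G x = c).card ≤ (AA G).card := by
  rcases ((RR0 G).filter fun x => cls G x = c).eq_empty_or_nonempty with h0 | ⟨a, ha⟩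
  · rw [h0, card_empty]
    exact Nat.zero_le _
  · obtain ⟨ha1, ha2⟩ := mem_filter.1 ha
    have ha3 : Nat.Coprime a G.Q := (mem_filter.1 ha1).2
    refine card_le_card_of_injOn (fun x => (x * a) % G.Q) ?_ ?_
    · intro x hx
      obtain ⟨hx1, hx2⟩ := mem_filter.1 (mem_coe.1 hx)
      have hx3 : Nat.Coprime x G.Q := (mem_filter.1 hx1).2
      refine mem_coe.2 (mem_filter.2 ⟨mem_range.2 (Nat.mod_lt _ h.q0), ?_, ?_⟩)
      · have h1 : Nat.Coprime (x * a) G.Q := Nat.Coprime.mul_left hx3 ha3
        rw [Nat.coprime_iff_gcd_eq_one, ← Nat.gcd_rec, Nat.gcd_comm]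
        exact h1
      · rw [hc_mod h]
        exact hc_of_cls h hx3 ha3 (hx2.trans ha2.symm)
    · intro x hx y hy hxy
      obtain ⟨hx1, hx2⟩ := mem_filter.1 (mem_coe.1 hx)
      obtain ⟨hy1, hy2⟩ := mem_filter.1 (mem_coe.1 hy)
      have hx3 : x < G.Q := mem_range.1 (mem_filter.1 hx1).1
      have hy3 : y < G.Q := mem_range.1 (mem_filter.1 hy1).1
      have h1 : x * a ≡ y * a [MOD G.Q] := hxy
      have h2 : x ≡ y [MOD G.Q] := Nat.ModEq.cancel_right_of_coprime (by
        rw [Nat.coprime_comm] at ha3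
        exact ha3) h1
      have h3 : x % G.Q = y % G.Q := h2
      rwa [Nat.mod_eq_of_lt hx3, Nat.mod_eq_of_lt hy3] at h3

theorem image_le {G : Cfg} (h : Ok G) :
    ((RR0 G).image (cls G)).card ≤ 2 ^ (G.L.card + 2) := by
  have h1 : (RR0 G).image (cls G) ⊆ ({1, 3, 5, 7} : Finset ℕ) ×ˢ G.L.powerset := by
    intro c hc
    obtain ⟨r, hr, rfl⟩ := mem_image.1 hc
    have hr2 : Nat.Coprime r G.Q := (mem_filter.1 hr).2
    rw [mem_product]
    refine ⟨?_, mem_powerset.2 (filter_subset _ _)⟩
    show r % 8 ∈ _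
    rcases odd_of h hr2 with h1 | h1 | h1 | h1 <;> rw [h1] <;> decide
  refine (card_le_card h1).trans ?_
  rw [card_product, card_powerset]
  have : ({1, 3, 5, 7} : Finset ℕ).card = 4 := by decide
  rw [this, pow_add]
  omega

/-- GD-DA: the density of the split primes is at least `2 ^ -(|L| + 2)`. -/
theorem t_DA : S_DA := by
  intro G h
  have h1 : (RR0 G).card ≤ (AA G).card * ((RR0 G).image (cls G)).card :=
    card_le_mul_card_image (RR0 G) (AA G).card fun c _ => fibre_le h c
  have h2 : Nat.totient G.Q ≤ (AA G).card * 2 ^ (G.L.card + 2) := by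
    rw [← card_RR0]
    exact h1.trans (Nat.mul_le_mul_left _ (image_le h))
  have h3 : 0 < (Nat.totient G.Q : ℝ) := by exact_mod_cast Nat.totient_pos.2 h.q0
  unfold da
  rw [div_le_div_iff₀ (by positivity) h3, one_mul]
  exact_mod_cast h2

end Pool.Agent.U234.GD
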